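import Pool.Agent.X246.LRA.Mem

/-!
# `LRA₀` (entrywise `ℓ⁰` low-rank approximation) is `∃ℝ`-complete, even for rank at most five

An input consists of the table of an `m × n` matrix `A` with rational entries (in binary), a
natural number `k` and a rational number `ε > 0`; the question is whether there is a real matrix
of rank at most `k` that differs from `A` in fewer than `ε` entries
(`Pool.Agent.X246.LRA.LRA0`).
-/

set_option autoImplicit false

namespace Pool.Agent.Results.MP_d82c50_lc.EntrywiseCountComplete

open Pool.Agent.NPC Pool.Agent.X246.LRA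

/-- (1) `LRA₀` is `∃ℝ`-complete; (2) it is `∃ℝ`-hard for the fixed rank bound `k = 5`. -/
theorem result : ER.ERComplete (lang LRA0) ∧
    ER.ERHard (lang (fun I : List (List ℚ) × ℚ => LRA0 (I.1, 5, I.2))) :=
  ⟨⟨X246LRA.mem, X246LRA.hard⟩, X246LRA.hard5⟩

end Pool.Agent.Results.MP_d82c50_lc.EntrywiseCountComplete
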